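import Pool.Agent.Helper64.RB.Pow

/-!
# Property (R) is equivalent to its fractional relaxation

For `D ⊆ ZMod p` and a real `C`: every `D`-progression-free `A ⊆ (ZMod p)^n` has at most `C ^ n`
elements for all `n`, if and only if for all `n` every `V ⊆ (ZMod p)^n` with more than `C ^ n`
elements carries a fractional `D`-line: non-negative weights on the `D`-lines inside `V`, not only
on trivial lines, whose three marginals (first, second, third point) are equal.
-/

namespace Pool.Agent.Results.MP_03d2c1_co.FractionalRelaxation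

/-- `A` contains no `x, x + w, x + 2w` with `w ∈ D^n`, `w ≠ 0`. -/
def DFree {p n : ℕ} (D : Set (ZMod p)) (A : Finset (Fin n → ZMod p)) : Prop :=
  ∀ x w : Fin n → ZMod p, (∀ i, w i ∈ D) → x ∈ A → x + w ∈ A → x + w + w ∈ A → w = 0

/-- `μ x w` is the weight of the line `(x, x + w, x + 2w)`: the weights are non-negative, only lines
in `V` with `w ∈ D^n` have non-zero weight, the three marginals agree, and some line with `w ≠ 0`
has non-zero weight. -/
def IsFractionalLine {p n : ℕ} [NeZero p] (D : Set (ZMod p)) (V : Finset (Fin n → ZMod p))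
    (μ : (Fin n → ZMod p) → (Fin n → ZMod p) → ℝ) : Prop :=
  (∀ x w, 0 ≤ μ x w) ∧
  (∀ x w, μ x w ≠ 0 → (∀ i, w i ∈ D) ∧ x ∈ V ∧ x + w ∈ V ∧ x + w + w ∈ V) ∧
  (∀ v, ∑ w, μ v w = ∑ w, μ (v - w) w) ∧
  (∀ v, ∑ w, μ v w = ∑ w, μ (v - w - w) w) ∧
  ∃ x w, w ≠ 0 ∧ μ x w ≠ 0

/-- Property (R) with the constant `C` holds for sets without `D`-lines if and only if it holds for
sets without fractional `D`-lines. -/
theorem result (p : ℕ) [NeZero p] (D : Set (ZMod p)) (C : ℝ) :
    (∀ (n : ℕ) (A : Finset (Fin n → ZMod p)), DFree D A → (A.card : ℝ) ≤ C ^ n) ↔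
    (∀ (n : ℕ) (V : Finset (Fin n → ZMod p)), C ^ n < V.card → ∃ μ, IsFractionalLine D V μ) := by
  constructor
  · intro h n V hV
    by_contra hcon
    push Not at hcon
    have hfree : Helper64.RB.Frx.FracFree D V := by
      intro μ h1 h2 h3 h4 x w hw
      by_contra hne
      exact hcon μ ⟨h1, h2, h3, h4, x, w, hw, hne⟩
    have := Helper64.RB.Frx.frac_bound (C := C) h hfree
    linarith
  · intro h n A hA
    by_contra hcon
    push Not at hcon
    obtain ⟨μ, -, h2, -, -, x, w, hw, hne⟩ := h n A hcon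
    obtain ⟨h3, h4, h5, h6⟩ := h2 x w hne
    exact hw (hA x w h3 h4 h5 h6)

end Pool.Agent.Results.MP_03d2c1_co.FractionalRelaxation
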