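import Pool.Agent.Helper64.RB.Low

/-!
# Lower bounds for the constant in property (R) when `D` is a short progression

For a prime `p ≥ 5` and `D ⊆ {0, c, …, kc}`: if every `D`-progression-free `A ⊆ (ZMod p)^n` has at
most `C ^ n` elements for every `n`, then `C ^ m ≥ p ^ m - p ^ (m - 1)` whenever `m ≥ 1` and
`k m ≤ 3`. For `|D| = 2` this gives `C ^ 3 ≥ p ^ 3 - p ^ 2`.
-/

namespace Pool.Agent.Results.MP_03d2c1_co.LowerBound

/-- `A` contains no `x, x + w, x + 2w` with `w ∈ D^n`, `w ≠ 0`. -/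
def DFree {p n : ℕ} (D : Set (ZMod p)) (A : Finset (Fin n → ZMod p)) : Prop :=
  ∀ x w : Fin n → ZMod p, (∀ i, w i ∈ D) → x ∈ A → x + w ∈ A → x + w + w ∈ A → w = 0

/-- Lower bounds for the constant in (R). -/
theorem result (p : ℕ) (hp : p.Prime) (hp5 : 5 ≤ p) (k m : ℕ) (hm : 1 ≤ m) (hkm : k * m ≤ 3)
    (c : ZMod p) (D : Set (ZMod p)) (hD : ∀ t ∈ D, ∃ j : ℕ, j ≤ k ∧ t = j * c) (C : ℝ)
    (hC : ∀ (n : ℕ) (A : Finset (Fin n → ZMod p)), DFree D A → (A.card : ℝ) ≤ C ^ n) :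
    (p : ℝ) ^ m - (p : ℝ) ^ (m - 1) ≤ C ^ m := by
  haveI : Fact p.Prime := ⟨hp⟩
  haveI : NeZero p := ⟨hp.ne_zero⟩
  obtain ⟨c', hc', hD'⟩ : ∃ c' : ZMod p, c' ≠ 0 ∧ ∀ t ∈ D, ∃ j : ℕ, j ≤ k ∧ t = j * c' := by
    by_cases hc : c = 0
    · refine ⟨1, one_ne_zero, fun t ht => ⟨0, Nat.zero_le _, ?_⟩⟩
      obtain ⟨j, -, h⟩ := hD t ht
      rw [h, hc]
      simp
    · exact ⟨c, hc, hD⟩
  obtain ⟨m', rfl⟩ : ∃ m', m = m' + 1 := ⟨m - 1, by omega⟩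
  have hfree := Helper64.RB.Frx.fracFree_nz hp5 hkm hc' hD'
  have h1 := Helper64.RB.Frx.frac_bound (C := C) hC hfree
  have h2 := Helper64.RB.Frx.card_nz (p := p) (m := m')
  have h3 : ((p ^ (m' + 1) - p ^ m' : ℕ) : ℝ) = (p : ℝ) ^ (m' + 1) - (p : ℝ) ^ m' := by
    rw [Nat.cast_sub (Nat.pow_le_pow_right hp.pos (Nat.le_succ _))]
    push_cast
    rfl
  have h4 : ((p ^ (m' + 1) - p ^ m' : ℕ) : ℝ) ≤
      ((Helper64.RB.Frx.nz p (m' + 1)).card : ℝ) := by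
    exact_mod_cast h2
  simp only [Nat.add_sub_cancel]
  linarith

end Pool.Agent.Results.MP_03d2c1_co.LowerBound
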