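import Pool.Agent.Helper64.RB.Coup

/-!
# The slice rank method gives nothing for intervals of differences of length up to `p / 3`

Let `p` be a prime, `k ≥ 1`, `3k ≤ p`, and let `D ⊆ ZMod p` be contained in a dilate
`{0, c, 2c, …, kc}` of `{0, 1, …, k}`. Every function `T : B × B × B → K`, `B ⊆ (ZMod p)^n`, `K` a
field, which is supported on the triples `(x, x + w, x + 2w)` with `w ∈ D^n` and which is non-zero
at all `(x, x, x)` has slice rank exactly `|B|`.
-/

namespace Pool.Agent.Results.MP_03d2c1_co.SliceRankBarrier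

/-- `T : X × X × X → K` is a sum of `r₁ + r₂ + r₃ ≤ r` slices, i.e. functions of the form
`f(x) g(y, z)`, `f(y) g(x, z)` or `f(z) g(x, y)`. -/
def SliceRankLe {X : Type*} {K : Type*} [Field K] (T : X → X → X → K) (r : ℕ) : Prop :=
  ∃ r₁ r₂ r₃ : ℕ, r₁ + r₂ + r₃ ≤ r ∧
    ∃ (f₁ : Fin r₁ → X → K) (g₁ : Fin r₁ → X → X → K)
      (f₂ : Fin r₂ → X → K) (g₂ : Fin r₂ → X → X → K)
      (f₃ : Fin r₃ → X → K) (g₃ : Fin r₃ → X → X → K),
      ∀ x y z, T x y z =
        ∑ i, f₁ i x * g₁ i y z + ∑ i, f₂ i y * g₂ i x z + ∑ i, f₃ i z * g₃ i x y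

/-- For `D` contained in a dilate of `{0, …, k}`, `3k ≤ p`, every tensor on a set
`B ⊆ (ZMod p)^n` supported on the `D`-lines and non-zero on the diagonal has slice rank
exactly `|B|`. -/
theorem result (p : ℕ) (hp : p.Prime) (k : ℕ) (hk : 1 ≤ k) (hkp : 3 * k ≤ p)
    (D : Set (ZMod p)) (c : ZMod p) (hD : ∀ d ∈ D, ∃ j : ℕ, j ≤ k ∧ d = j * c)
    (n : ℕ) (B : Finset (Fin n → ZMod p)) (K : Type*) [Field K] (T : B → B → B → K)
    (hT : ∀ x y z : B, T x y z ≠ 0 → ∃ w : Fin n → ZMod p, (∀ i, w i ∈ D) ∧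
      (y : Fin n → ZMod p) = x + w ∧ (z : Fin n → ZMod p) = x + w + w)
    (hd : ∀ x : B, T x x x ≠ 0) :
    IsLeast {r : ℕ | SliceRankLe T r} B.card := by
  classical
  haveI : Fact p.Prime := ⟨hp⟩
  haveI : NeZero p := ⟨hp.ne_zero⟩
  refine ⟨?_, ?_⟩
  · -- the trivial decomposition
    refine ⟨B.card, 0, 0, by simp, fun i x => if B.equivFin x = i then 1 else 0,
      fun i y z => T (B.equivFin.symm i) y z, fun i => i.elim0, fun i => i.elim0,
      fun i => i.elim0, fun i => i.elim0, fun x y z => ?_⟩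
    simp
  · intro r hr
    have h2 : IsUnit (2 : ZMod p) := by
      rw [isUnit_iff_ne_zero]
      intro h0
      have h1 : ((2 : ℕ) : ZMod p) = 0 := by exact_mod_cast h0
      have := (ZMod.natCast_eq_zero_iff 2 p).mp h1
      have := Nat.le_of_dvd (by norm_num) this
      omega
    -- a non-zero dilation factor
    obtain ⟨c', hc', hD'⟩ : ∃ c' : ZMod p, IsUnit c' ∧ ∀ d ∈ D, ∃ j : ℕ, j ≤ k ∧ d = j * c' := by
      by_cases hc0 : c = 0
      · refine ⟨1, isUnit_one, fun d hd => ⟨0, Nat.zero_le _, ?_⟩⟩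
        obtain ⟨j, -, hj⟩ := hD d hd
        rw [hj, hc0]
        simp
      · exact ⟨c, isUnit_iff_ne_zero.mpr hc0, hD⟩
    refine Helper64.RB.coup_full hk hkp h2 c' hc' n B T (fun x y z hxyz i => ?_) hd hr
    obtain ⟨w, hw, hy, hz⟩ := hT x y z hxyz
    obtain ⟨j, hj, hj'⟩ := hD' (w i) (hw i)
    refine ⟨j, hj, ?_, ?_⟩
    · rw [hy, ← hj', Pi.add_apply]
    · rw [hz, ← hj', Pi.add_apply, Pi.add_apply]
      ring

end Pool.Agent.Results.MP_03d2c1_co.SliceRankBarrier
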