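import Pool.Agent.Helper64.RB.Fam

/-!
# The tricoloured version of property (R) fails for all `D` with two elements

For an odd prime `p` and `D ⊆ ZMod p` with `0 ∈ D` and `|D| = 2` there are, for every `n ≥ 1`,
at least `p ^ n * exp (- C √n)` triples `(X i, Y i, Z i)` in `(ZMod p)^n` such that
`(X i, Y j, Z k)` has the form `(x, x + w, x + 2w)` with `w ∈ D^n` exactly if `i = j = k`.
-/

namespace Pool.Agent.Results.MP_03d2c1_co.TricolouredFamilies

open Real

/-- For `|D| = 2` there are tricoloured families of `D`-lines of almost full size. -/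
theorem result (p : ℕ) (hp : p.Prime) (hp2 : p ≠ 2) (D : Finset (ZMod p)) (h0 : (0 : ZMod p) ∈ D)
    (hD : D.card = 2) :
    ∃ C : ℝ, ∀ n : ℕ, 1 ≤ n → ∃ (N : ℕ) (X Y Z : Fin N → Fin n → ZMod p),
      (p : ℝ) ^ n * exp (-C * √n) ≤ N ∧
      ∀ i j k : Fin N, (∃ w : Fin n → ZMod p, (∀ t, w t ∈ D) ∧ Y j = X i + w ∧ Z k = X i + w + w) ↔
        (i = j ∧ j = k) := by
  classical
  haveI : Fact p.Prime := ⟨hp⟩
  haveI : NeZero p := ⟨hp.ne_zero⟩
  -- the non-zero element
  obtain ⟨δ, hδ, hδD⟩ : ∃ δ : ZMod p, δ ≠ 0 ∧ ∀ d, d ∈ D ↔ d = 0 ∨ d = δ := by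
    obtain ⟨a, b, hab, hDab⟩ := Finset.card_eq_two.mp hD
    rw [hDab] at h0
    simp only [Finset.mem_insert, Finset.mem_singleton] at h0
    rcases h0 with h0 | h0
    · exact ⟨b, fun h => hab (by rw [← h0, h]), fun d => by
        rw [hDab, ← h0]; simp only [Finset.mem_insert, Finset.mem_singleton]⟩
    · exact ⟨a, fun h => hab (by rw [← h0, h]), fun d => by
        rw [hDab, ← h0]; simp only [Finset.mem_insert, Finset.mem_singleton]; exact or_comm⟩
  have hp3 : 3 ≤ p := by
    have := hp.two_le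
    omega
  have hpp : ∀ a : ZMod p, a + a = 0 → a = 0 := by
    intro a ha
    have h2 : (2 : ZMod p) * a = 0 := by rw [two_mul, ha]
    rcases mul_eq_zero.mp h2 with h | h
    · exfalso
      have h1 : ((2 : ℕ) : ZMod p) = 0 := by exact_mod_cast h
      have := (ZMod.natCast_eq_zero_iff 2 p).mp h1
      have := Nat.le_of_dvd (by norm_num) this
      omega
    · exact h
  have hp0 : (0 : ℝ) < p := by exact_mod_cast hp.pos
  refine ⟨4 * √(log (12 * p) + 1) + log (48 * p), fun n hn => ?_⟩
  -- the auxiliary prime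
  obtain ⟨M, hMp, hQM, hMQ⟩ := Nat.exists_prime_lt_and_le_two_mul (p * (6 * 2 ^ n))
    (by have := hp.ne_zero; positivity)
  haveI : Fact M.Prime := ⟨hMp⟩
  have h2n : 1 ≤ 2 ^ n := Nat.one_le_two_pow
  have hM1 : p ≤ M := by nlinarith
  have hM2 : 6 * 2 ^ n ≤ M := by nlinarith [hp.pos]
  have hM3 : (2 : ZMod M) ≠ 0 := by
    intro h
    have h1 : ((2 : ℕ) : ZMod M) = 0 := by exact_mod_cast h
    have := (ZMod.natCast_eq_zero_iff 2 M).mp h1
    have := Nat.le_of_dvd (by norm_num) this
    omega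
  obtain ⟨S, hS, hScard, hS3⟩ := rothNumberNat_spec ((M + 1) / 2)
  obtain ⟨F, hF, hFstr⟩ := Helper64.RB.Tri.exists_family hpp hM3 hM1 hM2 hδ ((M + 1) / 2)
    (by omega) S hS hS3
  refine ⟨F.card, fun i => (F.equivFin.symm i).1.1,
    fun i => Helper64.RB.Tri.py δ (F.equivFin.symm i).1,
    fun i => Helper64.RB.Tri.pz δ (F.equivFin.symm i).1, ?_, ?_⟩
  · -- the size
    have hMpos : (0 : ℝ) < M := by exact_mod_cast hMp.pos
    have hM1' : (1 : ℝ) ≤ M := by exact_mod_cast hMp.one_lt.le
    have hN' : (M : ℝ) / 2 ≤ (((M + 1) / 2 : ℕ) : ℝ) := by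
      have : M ≤ 2 * ((M + 1) / 2) := by omega
      have h' : (M : ℝ) ≤ 2 * (((M + 1) / 2 : ℕ) : ℝ) := by exact_mod_cast this
      linarith
    have hNM : (((M + 1) / 2 : ℕ) : ℝ) ≤ M := by
      have : (M + 1) / 2 ≤ M := by have := hMp.pos; omega
      exact_mod_cast this
    have hNpos : (0 : ℝ) < (((M + 1) / 2 : ℕ) : ℝ) := by linarith [half_pos hMpos]
    have hroth := Behrend.roth_lower_bound (N := (M + 1) / 2)
    rw [← hScard] at hroth
    have hS1 : (M : ℝ) / 2 * exp (-4 * √(log M)) ≤ S.card := by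
      refine le_trans ?_ hroth
      have : exp (-4 * √(log M)) ≤ exp (-4 * √(log (((M + 1) / 2 : ℕ) : ℝ))) := by
        apply exp_le_exp.mpr
        have := sqrt_le_sqrt (log_le_log hNpos hNM)
        linarith
      exact mul_le_mul hN' this (exp_pos _).le hNpos.le
    have hF' : ((2 : ℝ) * p) ^ n * S.card ≤ 2 * (M : ℝ) ^ 2 * F.card := by exact_mod_cast hF
    have hMle : (M : ℝ) ≤ 12 * p * 2 ^ n := by
      have : M ≤ 12 * p * 2 ^ n := by
        calc M ≤ 2 * (p * (6 * 2 ^ n)) := hMQ
          _ = 12 * p * 2 ^ n := by ring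
      exact_mod_cast this
    -- |F| ≥ (2p)^n e^{-4 √log M} / (4 M)
    have h1 : ((2 : ℝ) * p) ^ n * exp (-4 * √(log M)) ≤ 4 * M * F.card := by
      have h2 : ((2 : ℝ) * p) ^ n * ((M : ℝ) / 2 * exp (-4 * √(log M))) ≤
          2 * (M : ℝ) ^ 2 * F.card :=
        (mul_le_mul_of_nonneg_left hS1 (by positivity)).trans hF'
      have h3 : (M : ℝ) / 2 * (((2 : ℝ) * p) ^ n * exp (-4 * √(log M))) ≤
          (M : ℝ) / 2 * (4 * M * F.card) := by
        calc (M : ℝ) / 2 * (((2 : ℝ) * p) ^ n * exp (-4 * √(log M)))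
            = ((2 : ℝ) * p) ^ n * ((M : ℝ) / 2 * exp (-4 * √(log M))) := by ring
          _ ≤ 2 * (M : ℝ) ^ 2 * F.card := h2
          _ = (M : ℝ) / 2 * (4 * M * F.card) := by ring
      exact le_of_mul_le_mul_left h3 (half_pos hMpos)
    have h4 : (p : ℝ) ^ n * exp (-4 * √(log M)) ≤ 48 * p * F.card := by
      have h5 : (2 : ℝ) ^ n * ((p : ℝ) ^ n * exp (-4 * √(log M))) ≤
          (2 : ℝ) ^ n * (48 * p * F.card) := by
        calc (2 : ℝ) ^ n * ((p : ℝ) ^ n * exp (-4 * √(log M)))
            = ((2 : ℝ) * p) ^ n * exp (-4 * √(log M)) := by rw [mul_pow]; ring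
          _ ≤ 4 * M * F.card := h1
          _ ≤ 4 * (12 * p * 2 ^ n) * F.card := by gcongr
          _ = (2 : ℝ) ^ n * (48 * p * F.card) := by ring
      exact le_of_mul_le_mul_left h5 (by positivity)
    have hn1 : (1 : ℝ) ≤ n := by exact_mod_cast hn
    have hsn : (1 : ℝ) ≤ √n := by
      rw [← sqrt_one]; exact sqrt_le_sqrt hn1
    have hlogM : log M ≤ n * (log (12 * p) + 1) := by
      have hl12 : 0 ≤ log (12 * p) := by
        apply log_nonneg
        have : (1 : ℝ) ≤ p := by exact_mod_cast hp.one_lt.le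
        linarith
      calc log M ≤ log (12 * p * 2 ^ n) := log_le_log hMpos hMle
        _ = log (12 * p) + n * log 2 := by
            rw [log_mul (by positivity) (by positivity), log_pow]
        _ ≤ n * log (12 * p) + n * 1 := by
            have : log 2 ≤ 1 := by linarith [log_two_lt_d9]
            have h7 : log (12 * p) ≤ n * log (12 * p) := by nlinarith
            have h8 : (n : ℝ) * log 2 ≤ n * 1 := mul_le_mul_of_nonneg_left this (by positivity)
            linarith
        _ = n * (log (12 * p) + 1) := by ring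
    have hsq : √(log M) ≤ √n * √(log (12 * p) + 1) := by
      rw [← sqrt_mul (by positivity)]
      exact sqrt_le_sqrt hlogM
    have hlog48 : 0 ≤ log (48 * p) := by
      apply log_nonneg
      have : (1 : ℝ) ≤ p := by exact_mod_cast hp.one_lt.le
      linarith
    have h6 : exp (-(4 * √(log (12 * p) + 1) + log (48 * p)) * √n) ≤
        exp (-4 * √(log M)) / (48 * p) := by
      rw [le_div_iff₀ (by positivity)]
      have e1 : (48 * (p : ℝ)) = exp (log (48 * p)) := (exp_log (by positivity)).symm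
      nth_rewrite 2 [e1]
      rw [← exp_add]
      apply exp_le_exp.mpr
      nlinarith [mul_le_mul_of_nonneg_left hsn hlog48]
    calc (p : ℝ) ^ n * exp (-(4 * √(log (12 * p) + 1) + log (48 * p)) * √n)
        ≤ (p : ℝ) ^ n * (exp (-4 * √(log M)) / (48 * p)) :=
          mul_le_mul_of_nonneg_left h6 (by positivity)
      _ = ((p : ℝ) ^ n * exp (-4 * √(log M))) / (48 * p) := by ring
      _ ≤ F.card := by
          rw [div_le_iff₀ (by positivity)]
          linarith
  · -- the structure
    intro i j k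
    constructor
    · rintro ⟨w, hw, hY, hZ⟩
      obtain ⟨e, he⟩ : ∃ e : Fin n → Bool, w = Helper64.RB.Tri.wv δ e := by
        refine ⟨fun t => decide (w t ≠ 0), funext fun t => ?_⟩
        rcases (hδD _).mp (hw t) with h | h
        · simp [Helper64.RB.Tri.wv, h]
        · simp [Helper64.RB.Tri.wv, h, hδ]
      obtain ⟨h1, h2, h3⟩ := hFstr _ (F.equivFin.symm i).2 _ (F.equivFin.symm j).2 _
        (F.equivFin.symm k).2 ((F.equivFin.symm i).1.1, e) rfl
        (by
          have := hY
          simp only at this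
          rw [this, he]; rfl)
        (by
          have := hZ
          simp only at this
          rw [this, he]; rfl)
      have hij : (F.equivFin.symm i).1 = (F.equivFin.symm j).1 := h1.symm.trans h2
      have hjk : (F.equivFin.symm j).1 = (F.equivFin.symm k).1 := h2.symm.trans h3
      exact ⟨F.equivFin.symm.injective (Subtype.ext hij), F.equivFin.symm.injective
        (Subtype.ext hjk)⟩
    · rintro ⟨rfl, rfl⟩
      refine ⟨Helper64.RB.Tri.wv δ (F.equivFin.symm i).1.2, fun t => ?_, rfl, rfl⟩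
      rw [hδD]
      by_cases h : (F.equivFin.symm i).1.2 t
      · right; simp [Helper64.RB.Tri.wv, h]
      · left; simp [Helper64.RB.Tri.wv, h]

end Pool.Agent.Results.MP_03d2c1_co.TricolouredFamilies
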